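import Pool.Agent.Helper86.TC8.Stmts

/-!
Large girth cubic graphs are 4-total-colourable: facts about `comb` (row COMB).
-/

set_option autoImplicit false

namespace Pool.Agent.Helper22.TC8

open Finset
open Pool.Agent.Helper86.TC8

/-- `q` can be reached from `p` together with a full sibling -/
def C (q p : Pr) : Bool :=
  (q.1 != q.2) && (q.1 != p.1) && (q.2 != p.1) && (q.2 != p.2)

theorem mem_comb {X Y : Finset Pr} {q : Pr} :
    q ∈ comb X Y ↔ ∃ p ∈ X, ∃ r ∈ Y, OKc q p r = true := by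
  unfold comb
  simp only [Finset.mem_filter, Finset.mem_univ, true_and]

theorem mem_full {q : Pr} : q ∈ full ↔ q.1 ≠ q.2 := by
  unfold full
  simp only [Finset.mem_filter, Finset.mem_univ, true_and]

theorem okc_symm (q p r : Pr) : OKc q p r = OKc q r p := by
  obtain ⟨⟨q1, q2⟩, ⟨q3, q4⟩⟩ := q
  obtain ⟨⟨p1, p2⟩, ⟨p3, p4⟩⟩ := p
  obtain ⟨⟨r1, r2⟩, ⟨r3, r4⟩⟩ := r
  unfold OKc
  simp only [bne_comm (a := (r1, r2)) (b := (p1, p2)), Bool.and_assoc]
  cases ((q1, q2) != (q3, q4)) <;> cases ((q1, q2) != (p1, p2)) <;>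
    cases ((q1, q2) != (r1, r2)) <;> cases ((q3, q4) != (p1, p2)) <;>
    cases ((q3, q4) != (r1, r2)) <;> cases ((p1, p2) != (r1, r2)) <;>
    cases ((q3, q4) != (p3, p4)) <;> cases ((q3, q4) != (r3, r4)) <;> rfl

theorem comb_symm (X Y : Finset Pr) : comb X Y = comb Y X := by
  ext q
  rw [mem_comb, mem_comb]
  constructor
  · rintro ⟨p, hp, r, hr, h⟩
    exact ⟨r, hr, p, hp, by rw [okc_symm]; exact h⟩
  · rintro ⟨p, hp, r, hr, h⟩
    exact ⟨r, hr, p, hp, by rw [okc_symm]; exact h⟩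

/-- all pairs -/
def allP : List Pr :=
  [((false, false), (false, false)), ((false, false), (false, true)),
   ((false, false), (true, false)), ((false, false), (true, true)),
   ((false, true), (false, false)), ((false, true), (false, true)),
   ((false, true), (true, false)), ((false, true), (true, true)),
   ((true, false), (false, false)), ((true, false), (false, true)),
   ((true, false), (true, false)), ((true, false), (true, true)),
   ((true, true), (false, false)), ((true, true), (false, true)),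
   ((true, true), (true, false)), ((true, true), (true, true))]

theorem mem_allP (q : Pr) : q ∈ allP := by
  obtain ⟨⟨q1, q2⟩, ⟨q3, q4⟩⟩ := q
  cases q1 <;> cases q2 <;> cases q3 <;> cases q4 <;> decide

theorem fact1 : (allP.all fun q => allP.all fun p =>
    (C q p == (allP.any fun r => (r.1 != r.2) && OKc q p r))) = true := by decide +kernel

theorem fact2 : (allP.all fun q => (q.1 == q.2) || (allP.all fun p0 => (p0.1 == p0.2) ||
    (allP.any fun p => C q p && (allP.any fun p' => C p p' && C p' p0)))) = true := by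
  decide +kernel

theorem C_iff (q p : Pr) : C q p = true ↔ ∃ r ∈ full, OKc q p r = true := by
  have h := List.all_eq_true.mp fact1 q (mem_allP q)
  have h2 := List.all_eq_true.mp h p (mem_allP p)
  rw [beq_iff_eq] at h2
  rw [h2, List.any_eq_true]
  constructor
  · rintro ⟨r, -, hr⟩
    rw [Bool.and_eq_true] at hr
    refine ⟨r, mem_full.mpr ?_, hr.2⟩
    exact bne_iff_ne.mp hr.1
  · rintro ⟨r, hr, hok⟩
    refine ⟨r, mem_allP r, ?_⟩
    rw [Bool.and_eq_true]
    exact ⟨bne_iff_ne.mpr (mem_full.mp hr), hok⟩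

theorem mem_comb_full {A : Finset Pr} {q : Pr} : q ∈ comb A full ↔ ∃ p ∈ A, C q p = true := by
  rw [mem_comb]
  constructor
  · rintro ⟨p, hp, r, hr, h⟩
    exact ⟨p, hp, (C_iff q p).mpr ⟨r, hr, h⟩⟩
  · rintro ⟨p, hp, h⟩
    obtain ⟨r, hr, h⟩ := (C_iff q p).mp h
    exact ⟨p, hp, r, hr, h⟩

theorem comb_mono {X X' Y Y' : Finset Pr} (hX : X ⊆ X') (hY : Y ⊆ Y') :
    comb X Y ⊆ comb X' Y' := by
  intro q hq
  obtain ⟨p, hp, r, hr, h⟩ := mem_comb.mp hq
  exact mem_comb.mpr ⟨p, hX hp, r, hY hr, h⟩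

theorem comb_sub_full (X Y : Finset Pr) : comb X Y ⊆ full := by
  intro q hq
  obtain ⟨p, hp, r, hr, h⟩ := mem_comb.mp hq
  rw [mem_full]
  unfold OKc at h
  simp only [Bool.and_eq_true] at h
  exact bne_iff_ne.mp h.1.1.1.1.1.1.1

theorem inH_iff (A : Finset Pr) : InH A ↔ ∀ q ∈ full, ∃ p ∈ A, C q p = true := by
  constructor
  · intro h q hq
    have h1 := h.1
    rw [← h1] at hq
    exact mem_comb_full.mp hq
  · intro h
    have h1 : comb A full = full := by
      apply Finset.Subset.antisymm (comb_sub_full _ _)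
      intro q hq
      exact mem_comb_full.mpr (h q hq)
    exact ⟨h1, by rw [comb_symm]; exact h1⟩

theorem inH_mono {X Y : Finset Pr} (h : X ⊆ Y) (hX : InH X) : InH Y := by
  rw [inH_iff] at hX ⊢
  intro q hq
  obtain ⟨p, hp, hc⟩ := hX q hq
  exact ⟨p, h hp, hc⟩

theorem inG_mono {X Y : Finset Pr} (h : X ⊆ Y) (hX : InG X) : InG Y :=
  ⟨inH_mono (comb_mono h (Finset.Subset.refl _)) hX.1,
    inH_mono (comb_mono (Finset.Subset.refl _) h) hX.2⟩

theorem inG_of_inH_comb {A : Finset Pr} (h : InH (comb A full)) : InG A :=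
  ⟨h, by rw [comb_symm]; exact h⟩

theorem inG_comb_full {X : Finset Pr} (h : (X ∩ full).Nonempty) : InG (comb X full) := by
  obtain ⟨p0, hp0⟩ := h
  rw [Finset.mem_inter] at hp0
  apply inG_of_inH_comb
  rw [inH_iff]
  intro q hq
  have h1 := List.all_eq_true.mp fact2 q (mem_allP q)
  rw [Bool.or_eq_true] at h1
  rcases h1 with h1 | h1
  · exact absurd (beq_iff_eq.mp h1) (mem_full.mp hq)
  have h2 := List.all_eq_true.mp h1 p0 (mem_allP p0)
  rw [Bool.or_eq_true] at h2
  rcases h2 with h2 | h2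
  · exact absurd (beq_iff_eq.mp h2) (mem_full.mp hp0.2)
  rw [List.any_eq_true] at h2
  obtain ⟨p, -, h3⟩ := h2
  rw [Bool.and_eq_true, List.any_eq_true] at h3
  obtain ⟨h4, p', -, h5⟩ := h3
  rw [Bool.and_eq_true] at h5
  exact ⟨p, mem_comb_full.mpr ⟨p', mem_comb_full.mpr ⟨p0, hp0.1, h5.2⟩, h5.1⟩, h4⟩

theorem pair_mem_full : ∀ a st, pair a st ∈ full := by
  intro a st
  rw [mem_full]
  obtain ⟨s, P, m, B⟩ := st
  cases a <;> cases s <;> cases P <;> cases m <;> cases B <;> decide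

theorem inH_full : InH full := by
  rw [inH_iff]
  intro q hq
  have h := inG_comb_full (X := full) ⟨q, by rw [Finset.inter_self]; exact hq⟩
  have h1 := h.1
  rw [inH_iff] at h1
  obtain ⟨p, hp, hc⟩ := h1 q hq
  exact ⟨p, comb_sub_full _ _ hp, hc⟩

theorem inG_of_inH {X : Finset Pr} (h : InH X) : InG X := by
  refine ⟨?_, ?_⟩
  · rw [h.1]; exact inH_full
  · rw [h.2]; exact inH_full

/-- row COMB -/
theorem st_COMB (hcol : ST_COL) : ST_COMB := by
  obtain ⟨hn, hv, hd, -⟩ := hcol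
  refine ⟨fun X X' Y Y' hX hY => comb_mono hX hY, comb_sub_full, ?_, ?_, fun X h => inG_of_inH h,
    inH_full, ?_, pair_mem_full⟩
  · intro X hX
    have h := inG_comb_full hX
    exact ⟨by rw [comb_symm]; exact h, h⟩
  · intro X Y h
    exact ⟨inH_mono h, inG_mono h⟩
  · intro a st x y hx hy
    rw [mem_comb]
    refine ⟨_, Finset.mem_singleton_self _, _, Finset.mem_singleton_self _, ?_⟩
    have h1 := hn _ _ _ hx
    have h2 := hn _ _ _ hy
    have e1 : a.inv ≠ k1 a := by cases a <;> decide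
    have e2 : a.inv ≠ k2 a := by cases a <;> decide
    have e3 : k1 a ≠ k2 a := by cases a <;> decide
    unfold OKc pair
    simp only [← h1.1, ← h2.1, Bool.and_eq_true, bne_iff_ne]
    exact ⟨⟨⟨⟨⟨⟨⟨hv _ _, hd _ _ _ e1⟩, hd _ _ _ e2⟩, (hv _ _).symm⟩, (hv _ _).symm⟩,
      hd _ _ _ e3⟩, h1.2⟩, h2.2⟩

end Pool.Agent.Helper22.TC8
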