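import Pool.Agent.Helper86.TC8.Stmts

/-!
Large girth cubic graphs are 4-total-colourable: the theorem from PMG, GLUE, MAT0, BRI (row FINAL).
-/

set_option autoImplicit false

namespace Pool.Agent.Helper22.TC8

open Finset
open Pool.Agent.Helper86.TC8

theorem girthGe_mono {V : Type} {G : SimpleGraph V} {g h : ℕ} (hgh : g ≤ h) (H : GirthGe G h) :
    GirthGe G g := fun u p hp => hgh.trans (H u p hp)

theorem girthGe_sub {V : Type} {G H : SimpleGraph V} {g : ℕ} (hle : H ≤ G) (hG : GirthGe G g) :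
    GirthGe H g := by
  intro u p hp
  have h := hG u (p.mapLe hle) (hp.mapLe hle)
  simpa using h

theorem noBr_le {V : Type} (G : SimpleGraph V) : noBr G ≤ G := fun _ _ h => h.1

/-- row FINAL -/
theorem st_FINAL (hpmg : ST_PMG) (hglue : ST_GLUE) (hmat : ST_MAT0) (hbri : ST_BRI) :
    ST_FINAL := by
  obtain ⟨g, hg⟩ := hpmg
  refine ⟨max g 3, ?_⟩
  intro V _ G hreg hgirth
  have hpm : PMH (max g 3) := fun W _ H hr hgi hM => hg W H hr (girthGe_mono (le_max_left _ _) hgi) hM
  obtain ⟨M, hM1, hM2, hM3⟩ := hmat V G hreg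
  refine hbri V G (fun v => (hreg v).le) ?_
  refine hglue (max g 3) (le_max_right _ _) hpm V (noBr G) ?_ (girthGe_sub (noBr_le G) hgirth)
    M hM1 hM2 hM3
  intro v
  rw [← hreg v]
  exact Set.ncard_le_ncard (fun w hw => noBr_le G hw) (Set.toFinite _)

end Pool.Agent.Helper22.TC8
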